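import Pool.Agent.Y382.FS.Main
import Pool.Agent.TH455.FP.Glue
import Pool.Agent.TH676.Z.MacDel

set_option autoImplicit false
set_option linter.unusedSectionVars false

/-! # Flow polynomials and surfaces: from minors to the flow polynomial -/

namespace Pool.Agent.Y382.FS

open Finset Pool.Agent.H753R2.FR Pool.Agent.H753R2.FR.E1 Pool.Agent.H753R2.FR.D6b
open Pool.Agent.TH455.FP

/-- few vertices -/
def PV (N : ℕ) : Cls := fun V _ _ _ _ _ _ => Fintype.card V < N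

theorem closed_PV (N : ℕ) : Closed (PV N) := by
  intro V E V' E' _ _ _ _ _ _ _ _ G F φ ψ hG hφs _ _
  exact lt_of_le_of_lt (Fintype.card_le_of_surjective φ hφs) hG

theorem no_mce_V {V E : Type} [Fintype V] [DecidableEq V] [Fintype E] [DecidableEq E]
    {q : ℝ} {G : MG V E} (hq : 5 < q) {g : ℕ} (hg2 : 2 ≤ g) (hg : (g : ℝ) < q + 1)
    (hP : PV (moore g) V E G) : ¬ MCE q G := by
  intro hM
  have h1 := moore_le hM hq hg2 hg
  have h2 := card_le_univ (TH676.Z.VS G.x G.y ∅)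
  have h3 : Fintype.card V < moore g := hP
  omega

section

variable {n m' : ℕ} {ends : Fin m' → Fin n × Fin n}

theorem mac_sdiff {V E : Type} [Fintype V] [DecidableEq V] [Fintype E] [DecidableEq E]
    {src dst : E → V} {F : Finset E} {h : ℕ} (D : Finset E) (hM : TH676.Z.Mac h src dst F) :
    TH676.Z.Mac h src dst (F \ D) := by
  induction D using Finset.induction_on with
  | empty => rw [Finset.sdiff_empty]; exact hM
  | insert e D _ ih =>
    rw [Finset.sdiff_insert]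
    exact TH676.Z.macDel V E src dst (F \ D) h e ih

theorem mac_mono {V E : Type} [Fintype V] [DecidableEq V] [Fintype E] [DecidableEq E]
    {src dst : E → V} {F : Finset E} {h h' : ℕ} (hh : h ≤ h') (hM : TH676.Z.Mac h src dst F) :
    TH676.Z.Mac h' src dst F := by
  obtain ⟨k, K, h1, h2, h3⟩ := hM
  exact ⟨k, K, h1, h2, h3.trans (Nat.add_le_add_left hh _)⟩

/-- a nowhere-zero 5-flow (helper676) -/
theorem five_flow (S : Finset (Fin n)) (h : ℕ)
    (hkh : ((S.card = 0 ∧ h ≤ 5) ∨ (S.card ≤ 1 ∧ h ≤ 4) ∨ (S.card ≤ 2 ∧ h ≤ 3) ∨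
        (S.card ≤ 3 ∧ h ≤ 1)))
    (hM : TH676.Z.Mac h (fun e => (ends e).1) (fun e => (ends e).2)
      (TH676.Z.ES (fun e => (ends e).1) (fun e => (ends e).2) S))
    (hb : ∀ X : Finset (Fin n),
      (univ.filter (fun e => ¬ ((ends e).1 ∈ X ↔ (ends e).2 ∈ X))).card ≠ 1) :
    ∃ f : Fin m' → ℤ, (∀ e, 1 ≤ |f e| ∧ |f e| ≤ 4) ∧
      ∀ v, ∑ e ∈ univ.filter (fun e => (ends e).1 = v), f e =
        ∑ e ∈ univ.filter (fun e => (ends e).2 = v), f e := by
  have hbr : TH676.Z.Br (fun e => (ends e).1) (fun e => (ends e).2) ∅ ∅ :=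
    fun Y _ => by rw [Finset.sdiff_empty]; exact hb Y
  have hfl : TH676.Z.FlowOn (fun e => (ends e).1) (fun e => (ends e).2) ∅ ∅ := by
    rcases hkh with ⟨h1, h2⟩ | ⟨h1, h2⟩ | ⟨h1, h2⟩ | ⟨h1, h2⟩
    · exact TH676.Z.apexH TH676.Z.aphMC TH676.Z.edge14
        TH676.Z.split _ _ _ _ 0 5 (Or.inl ⟨rfl, rfl⟩)
        ⟨S, h1.le, mac_mono h2 hM⟩ hbr
    · exact TH676.Z.apexH TH676.Z.aphMC TH676.Z.edge14
        TH676.Z.split _ _ _ _ 1 4 (Or.inr (Or.inl ⟨rfl, rfl⟩))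
        ⟨S, h1, mac_mono h2 hM⟩ hbr
    · exact TH676.Z.apexH TH676.Z.aphMC TH676.Z.edge14
        TH676.Z.split _ _ _ _ 2 3 (Or.inr (Or.inr (Or.inl ⟨rfl, rfl⟩)))
        ⟨S, h1, mac_mono h2 hM⟩ hbr
    · exact TH676.Z.apexH TH676.Z.aphMC TH676.Z.edge14
        TH676.Z.split _ _ _ _ 3 1 (Or.inr (Or.inr (Or.inr ⟨rfl, rfl⟩)))
        ⟨S, h1, mac_mono h2 hM⟩ hbr
  have hnz : TH497.PW.NZF (fun e => (ends e).1) (fun e => (ends e).2) := by
    obtain ⟨f, h1, _, h3⟩ := hfl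
    refine ⟨f, fun e => h3 e (Finset.notMem_empty _) (Finset.notMem_empty _), fun x => ?_⟩
    rw [← h1 x]
    unfold TH676.Z.bd
    refine Finset.sum_congr rfl fun e _ => ?_
    unfold TH497.PW.ic
    by_cases h4 : (ends e).1 = x <;> by_cases h5 : (ends e).2 = x <;> simp [h4, h5]
  obtain ⟨F, hF, hF0⟩ := TH497.PW.int_flow _ _ hnz
  refine ⟨F, hF, fun v => ?_⟩
  rw [Finset.sum_filter, Finset.sum_filter, ← sub_eq_zero, ← Finset.sum_sub_distrib]
  refine Eq.trans (Finset.sum_congr rfl fun e _ => ?_) (hF0 v)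
  by_cases h1 : (ends e).1 = v <;> by_cases h2 : (ends e).2 = v <;> simp [h1, h2]

end

/-- the numerical condition for `4 h ≤ 2 ^ (q / 2)` -/
theorem cond_of_exp {q : ℝ} (hq : 8 ≤ q) {h : ℕ} (hh : 4 * (h : ℝ) ≤ 2 ^ (q / 2)) :
    2 * ⌈q⌉₊ * h < (⌈q⌉₊ - 6) * moore ⌈q⌉₊ + 4 * ⌈q⌉₊ := by
  have hg8 : 8 ≤ ⌈q⌉₊ := by
    have : ((8 : ℕ) : ℝ) ≤ ⌈q⌉₊ := by
      push_cast
      exact hq.trans (Nat.le_ceil q)
    exact_mod_cast this
  have hqg : q ≤ ⌈q⌉₊ := Nat.le_ceil q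
  generalize ⌈q⌉₊ = g at hg8 hqg
  have hM : 8 * h ≤ moore g + 2 := by
    have h1 : (2 : ℝ) ^ (q / 2) ≤ 2 ^ ((g : ℝ) / 2) :=
      Real.rpow_le_rpow_of_exponent_le (by norm_num) (by linarith)
    rcases Nat.even_or_odd' g with ⟨k, hk | hk⟩
    · have h2 : g % 2 = 0 := by omega
      have h3 : g / 2 = k := by omega
      have h4 : (2 : ℝ) ^ ((g : ℝ) / 2) = 2 ^ k := by
        rw [hk]
        push_cast
        rw [mul_div_cancel_left₀ _ (by norm_num : (2 : ℝ) ≠ 0), Real.rpow_natCast]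
      have h5 : (8 : ℝ) * h ≤ 2 * 2 ^ k := by rw [h4] at h1; linarith
      have h6 : 8 * h ≤ 2 * 2 ^ k := by exact_mod_cast h5
      unfold moore
      rw [if_pos h2, h3]
      omega
    · have h2 : ¬ g % 2 = 0 := by omega
      have h3 : g / 2 = k := by omega
      have h4 : (2 : ℝ) ^ ((g : ℝ) / 2) ≤ 3 / 2 * 2 ^ k := by
        have e1 : ((g : ℝ) / 2) = (k : ℝ) + 1 / 2 := by
          rw [hk]; push_cast; ring
        rw [e1, Real.rpow_add (by norm_num), Real.rpow_natCast, ← Real.sqrt_eq_rpow]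
        have e2 : Real.sqrt 2 ≤ 3 / 2 := by
          rw [Real.sqrt_le_left (by norm_num)]; norm_num
        have e3 : (0 : ℝ) ≤ 2 ^ k := by positivity
        nlinarith
      have h5 : (8 : ℝ) * h ≤ 3 * 2 ^ k := by linarith
      have h6 : 8 * h ≤ 3 * 2 ^ k := by exact_mod_cast h5
      unfold moore
      rw [if_neg h2, h3]
      omega
  obtain ⟨a, rfl⟩ : ∃ a, g = a + 6 := ⟨g - 6, by omega⟩
  rw [Nat.add_sub_cancel]
  have ha : 2 ≤ a := by omega
  generalize moore (a + 6) = M at hM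
  have h1 : a * (8 * h) ≤ a * (M + 2) := Nat.mul_le_mul_left _ hM
  have h2 : 2 * h ≤ a * h := Nat.mul_le_mul_right _ ha
  nlinarith

end Pool.Agent.Y382.FS
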