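import Pool.Agent.TH455.FP.Min

set_option autoImplicit false
set_option linter.unusedSectionVars false

/-! # Minimal counterexamples in a class of graphs which is closed under minors -/

namespace Pool.Agent.Y382.FS

open Finset Pool.Agent.H753R2.FR Pool.Agent.H753R2.FR.E1 Pool.Agent.TH325.FR Pool.Agent.TH455.FP

/-- a class of multigraphs -/
def Cls : Type 1 := ∀ (V E : Type) [Fintype V] [DecidableEq V] [Fintype E] [DecidableEq E],
  MG V E → Prop

/-- the class is closed under minors -/
def Closed (P : Cls) : Prop :=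
  ∀ (V E V' E' : Type) [Fintype V] [DecidableEq V] [Fintype E] [DecidableEq E]
    [Fintype V'] [DecidableEq V'] [Fintype E'] [DecidableEq E']
    (G : MG V E) (F : Finset E) (φ : V → V') (ψ : E' → E), P V E G →
    Function.Surjective φ → Function.Injective ψ → (∀ a b, φ a = φ b ↔ conn G F a b) →
    P V' E' ⟨fun e => φ (G.x (ψ e)), fun e => φ (G.y (ψ e))⟩

/-- no counterexample with fewer than `N` vertices and edges -/
def OkC (P : Cls) (q : ℝ) (N : ℕ) : Prop :=
  ∀ (V E : Type) [Fintype V] [DecidableEq V] [Fintype E] [DecidableEq E] [Nonempty V]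
    (G : MG V E), Fintype.card V + Fintype.card E < N → P V E G → Bridgeless G →
    0 < m G q ⊥ univ

variable {V E : Type} [Fintype V] [DecidableEq V] [Fintype E] [DecidableEq E]

theorem pos_minorC {P : Cls} (hP : Closed P) [Nonempty V] {q : ℝ} (G : MG V E) (hT : P V E G)
    (ok : OkC P q (Fintype.card V + Fintype.card E)) (F S : Finset E)
    (hFS : conn G F ≠ ⊥ ∨ S ≠ univ)
    (hb : ∀ e ∈ S, (conn G F ⊔ conn G (S.erase e)) (G.x e) (G.y e)) :
    0 < m G q (conn G F) S := by
  classical
  have hφ0 : ∀ a b, Quotient.mk (conn G F) a = Quotient.mk (conn G F) b ↔ conn G F a b :=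
    fun a b => Quotient.eq
  generalize hr0 : conn G F = r at *
  have hfin : Finite (Quotient r) := Quotient.finite r
  letI : Fintype (Quotient r) := Fintype.ofFinite _
  let φ : V → Quotient r := Quotient.mk r
  have hφ : Function.Surjective φ := Quotient.mk_surjective
  let ψ : {e // e ∈ S} ↪ E := Function.Embedding.subtype _
  have hψ : (univ : Finset {e // e ∈ S}).map ψ = S := by
    rw [← Finset.attach_eq_univ]; exact Finset.attach_map_val
  let G' : MG (Quotient r) {e // e ∈ S} := ⟨fun i => φ (G.x (ψ i)), fun i => φ (G.y (ψ i))⟩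
  have hr : Setoid.comap φ ⊥ = r := by
    ext a b
    rw [Setoid.comap_rel]
    exact hφ0 a b
  have h1 : m G' q ⊥ univ = m G q r S := by
    rw [← m_comap q φ hφ ψ G G' (fun _ => rfl) (fun _ => rfl) ⊥ univ, hr, hψ]
  rw [← h1]
  have hne : Nonempty (Quotient r) := ⟨φ (Classical.arbitrary V)⟩
  apply ok _ _ G'
  · have hV : Fintype.card (Quotient r) = cl r := (Nat.card_eq_fintype_card).symm
    have hE : Fintype.card {e // e ∈ S} = S.card := Fintype.card_coe S
    rw [hV, hE]
    have a1 := cl_le_card r
    have a2 : S.card ≤ Fintype.card E := card_le_univ S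
    rcases hFS with h | h
    · have := cl_lt_of_ne_bot h; omega
    · have h2 : S ⊂ univ := Finset.ssubset_univ_iff.2 h
      have := Finset.card_lt_card h2
      rw [card_univ] at this; omega
  · exact hP _ _ _ _ G F φ ψ hT hφ ψ.injective (fun a b => by rw [hr0]; exact hφ0 a b)
  · intro i
    have h1 := hb (ψ i) i.2
    have h2 : S.erase (ψ i) = ((univ : Finset {e // e ∈ S}).erase i).map ψ := by
      rw [Finset.map_erase, hψ]
    have h3 := conn_comap φ ψ G G' (fun _ => rfl) (fun _ => rfl) ⊥ (univ.erase i)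
    rw [hr] at h3
    rw [h2, h3, Setoid.comap_rel, bot_sup_eq] at h1
    exact h1

theorem nn_minorC {P : Cls} (hP : Closed P) [Nonempty V] {q : ℝ} (hq : 1 < q) (G : MG V E)
    (hT : P V E G) (ok : OkC P q (Fintype.card V + Fintype.card E)) (F S : Finset E)
    (hFS : conn G F ≠ ⊥ ∨ S ≠ univ) : 0 ≤ m G q (conn G F) S := by
  by_cases hb : ∀ e ∈ S, (conn G F ⊔ conn G (S.erase e)) (G.x e) (G.y e)
  · exact (pos_minorC hP G hT ok F S hFS hb).le
  · push Not at hb
    obtain ⟨e, he, hbr⟩ := hb
    rw [← Finset.insert_erase he]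
    exact (m_bridge G q hq (Finset.notMem_erase e S) _ hbr).ge

/-- if there is a counterexample then there is a minimal one -/
theorem exists_mceC {P : Cls} (hP : Closed P) {q : ℝ} (hq : 1 < q)
    (hno : ∀ (V E : Type) [Fintype V] [DecidableEq V] [Fintype E] [DecidableEq E] [Nonempty V]
      (G : MG V E), P V E G → ¬ MCE q G) : ∀ N, OkC P q N := by
  intro N
  induction N with
  | zero => intro V E _ _ _ _ _ G hN; omega
  | succ N ih =>
    intro V E _ _ _ _ _ G hN hT hb
    by_contra hneg
    push Not at hneg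
    have ok : OkC P q (Fintype.card V + Fintype.card E) := by
      intro V' E' _ _ _ _ _ G' h1 h2 h3
      exact ih V' E' G' (by omega) h2 h3
    exact hno V E G hT ⟨hb, hneg, pos_minorC hP G hT ok, nn_minorC hP hq G hT ok⟩

theorem pos_of_cls {P : Cls} (hP : Closed P) {q : ℝ} (hq : 1 < q)
    (hno : ∀ (V E : Type) [Fintype V] [DecidableEq V] [Fintype E] [DecidableEq E] [Nonempty V]
      (G : MG V E), P V E G → ¬ MCE q G) (V E : Type) [Fintype V] [DecidableEq V] [Fintype E]
    [DecidableEq E] [Nonempty V] (G : MG V E) (hT : P V E G) (hb : Bridgeless G) :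
    0 < m G q ⊥ univ :=
  exists_mceC hP hq hno (Fintype.card V + Fintype.card E + 1) V E G (by omega) hT hb

end Pool.Agent.Y382.FS
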