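import Pool.Agent.TH676.Z.AphMC

set_option autoImplicit false
set_option linter.unusedSectionVars false

/-! # MacLane's condition and minors given by maps of the vertices and edges -/

namespace Pool.Agent.Y382.FS

open Finset Pool.Agent.TH676.Z

section

variable {V E V' E' : Type} [Fintype V] [DecidableEq V] [Fintype E] [DecidableEq E]
  [Fintype V'] [DecidableEq V'] [Fintype E'] [DecidableEq E']

theorem bd2_sub (src dst : E → V) (F : Finset E) (x : E → ZMod 2) (hx : ∀ e, e ∉ F → x e = 0)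
    (v : V) : bd2 src dst x v =
      ∑ e ∈ F, ((if src e = v then x e else 0) + (if dst e = v then x e else 0)) := by
  unfold bd2
  refine (sum_subset (subset_univ F) fun e _ he => ?_).symm
  rw [hx e he]
  simp

/-- the boundary in the new graph -/
theorem bd2_new {src dst : E → V} {src' dst' : E' → V'} {F : Finset E} {F' : Finset E'}
    (ψ : E' → E) (hψ : Function.Injective ψ) (hF : F = F'.image ψ) (θ : V → V')
    (N : Set V) (hN : ∀ e ∈ F, src e ∈ N ∧ dst e ∈ N) (hθ : Set.InjOn θ N)
    (hs : ∀ e ∈ F', src' e = θ (src (ψ e)) ∧ dst' e = θ (dst (ψ e)))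
    (x : E → ZMod 2) (hx : ∀ e, e ∉ F → x e = 0) (v : V) (hv : v ∈ N) :
    bd2 src dst x v = bd2 src' dst' (fun e => if e ∈ F' then x (ψ e) else 0) (θ v) := by
  rw [bd2_sub src dst F x hx, bd2_sub src' dst' F' _ (by
    intro e he
    rw [if_neg he]), hF, sum_image (fun a _ b _ h => hψ h)]
  refine sum_congr rfl fun e he => ?_
  obtain ⟨h1, h2⟩ := hs e he
  have hm : ψ e ∈ F := by rw [hF]; exact mem_image_of_mem _ he
  obtain ⟨h3, h4⟩ := hN _ hm
  have e1 : (src (ψ e) = v) ↔ (src' e = θ v) := by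
    rw [h1]
    exact ⟨fun h => by rw [h], fun h => hθ h3 hv h⟩
  have e2 : (dst (ψ e) = v) ↔ (dst' e = θ v) := by
    rw [h2]
    exact ⟨fun h => by rw [h], fun h => hθ h4 hv h⟩
  rw [if_pos he]
  by_cases a1 : src (ψ e) = v <;> by_cases a2 : dst (ψ e) = v
  · rw [if_pos a1, if_pos a2, if_pos (e1.1 a1), if_pos (e2.1 a2)]
  · rw [if_pos a1, if_neg a2, if_pos (e1.1 a1), if_neg (fun h => a2 (e2.2 h))]
  · rw [if_neg a1, if_pos a2, if_neg (fun h => a1 (e1.2 h)), if_pos (e2.1 a2)]
  · rw [if_neg a1, if_neg a2, if_neg (fun h => a1 (e1.2 h)), if_neg (fun h => a2 (e2.2 h))]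

/-- the boundary in the new graph at a vertex which is not an end -/
theorem bd2_out {src dst : E → V} {F : Finset E}
    (x : E → ZMod 2) (hx : ∀ e, e ∉ F → x e = 0) (v : V)
    (hv : ∀ e ∈ F, src e ≠ v ∧ dst e ≠ v) : bd2 src dst x v = 0 := by
  rw [bd2_sub src dst F x hx]
  refine sum_eq_zero fun e he => ?_
  rw [if_neg (hv e he).1, if_neg (hv e he).2, add_zero]

/-- transfer of MacLane's condition along a renaming of the edges and the vertices -/
theorem mac_transfer {src dst : E → V} {src' dst' : E' → V'} {F : Finset E} {F' : Finset E'}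
    {h : ℕ} (hM : Mac h src dst F)
    (ψ : E' → E) (hψ : Function.Injective ψ) (hF : F = F'.image ψ) (θ : V → V')
    (N : Set V) (hN : ∀ e ∈ F, src e ∈ N ∧ dst e ∈ N) (hθ : Set.InjOn θ N)
    (hs : ∀ e ∈ F', src' e = θ (src (ψ e)) ∧ dst' e = θ (dst (ψ e))) :
    Mac h src' dst' F' := by
  obtain ⟨k, K, h1, h2, h3⟩ := hM
  set P : (E → ZMod 2) →ₗ[ZMod 2] (E' → ZMod 2) := LinearMap.funLeft (ZMod 2) (ZMod 2) ψ with hP
  have hPx : ∀ x e, P x e = x (ψ e) := fun x e => rfl
  have hmemψ : ∀ e, ψ e ∈ F ↔ e ∈ F' := by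
    intro e
    rw [hF, mem_image]
    constructor
    · rintro ⟨a, ha, hae⟩
      rw [← hψ hae]; exact ha
    · intro he
      exact ⟨e, he, rfl⟩
  -- the restriction of a cycle
  have hPF : ∀ x, (∀ e, e ∉ F → x e = 0) → P x = fun e => if e ∈ F' then x (ψ e) else 0 := by
    intro x hx
    funext e
    rw [hPx]
    by_cases he : e ∈ F'
    · rw [if_pos he]
    · rw [if_neg he]
      exact hx _ (fun h' => he ((hmemψ e).1 h'))
  have hN' : ∀ e ∈ F', src' e ∈ θ '' N ∧ dst' e ∈ θ '' N := by
    intro e he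
    obtain ⟨a1, a2⟩ := hs e he
    obtain ⟨b1, b2⟩ := hN _ ((hmemψ e).2 he)
    rw [a1, a2]
    exact ⟨⟨_, b1, rfl⟩, ⟨_, b2, rfl⟩⟩
  have hto : ∀ x ∈ ZF src dst F, P x ∈ ZF src' dst' F' := by
    intro x hx
    refine ⟨?_, ?_⟩
    · intro e he
      rw [hPx]
      exact hx.1 _ (fun h' => he ((hmemψ e).1 h'))
    · intro v
      by_cases hv : v ∈ θ '' N
      · obtain ⟨u, hu, rfl⟩ := hv
        rw [hPF x hx.1, ← bd2_new ψ hψ hF θ N hN hθ hs x hx.1 u hu]
        exact hx.2 u
      · refine bd2_out (F := F') (P x) ?_ v ?_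
        · intro e he
          rw [hPx]
          exact hx.1 _ (fun h' => he ((hmemψ e).1 h'))
        · intro e he
          obtain ⟨a1, a2⟩ := hN' e he
          exact ⟨fun h' => hv (h' ▸ a1), fun h' => hv (h' ▸ a2)⟩
  have hle : ZF src' dst' F' ≤ (ZF src dst F).map P := by
    intro y hy
    classical
    set x : E → ZMod 2 := fun e => if h' : ∃ e' ∈ F', ψ e' = e then y h'.choose else 0 with hx
    have hxψ : ∀ e ∈ F', x (ψ e) = y e := by
      intro e he
      have h' : ∃ e' ∈ F', ψ e' = ψ e := ⟨e, he, rfl⟩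
      rw [hx]
      simp only [dif_pos h']
      rw [hψ h'.choose_spec.2]
    have hx0 : ∀ e, e ∉ F → x e = 0 := by
      intro e he
      rw [hx]
      simp only
      rw [dif_neg]
      rintro ⟨e', he', rfl⟩
      exact he ((hmemψ e').2 he')
    have hPxy : P x = y := by
      funext e
      rw [hPx]
      by_cases he : e ∈ F'
      · exact hxψ e he
      · rw [hx0 _ (fun h' => he ((hmemψ e).1 h')), hy.1 e he]
    refine ⟨x, ⟨hx0, fun v => ?_⟩, hPxy⟩
    by_cases hv : v ∈ N
    · rw [bd2_new ψ hψ hF θ N hN hθ hs x hx0 v hv, ← hPF x hx0, hPxy]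
      exact hy.2 _
    · refine bd2_out (F := F) x hx0 v fun e he => ?_
      obtain ⟨b1, b2⟩ := hN e he
      exact ⟨fun h' => hv (h' ▸ b1), fun h' => hv (h' ▸ b2)⟩
  refine ⟨k, fun i => P (K i), fun i => hto _ (h1 i), ?_, ?_⟩
  · intro e
    exact h2 (ψ e)
  · have e1 : Module.finrank (ZMod 2) (ZF src' dst' F') ≤
        Module.finrank (ZMod 2) (ZF src dst F) :=
      (Submodule.finrank_mono hle).trans (Submodule.finrank_map_le _ _)
    have hspan : Submodule.span (ZMod 2) (Set.range (fun i => P (K i))) =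
        (Submodule.span (ZMod 2) (Set.range K)).map P := by
      rw [Submodule.map_span, ← Set.range_comp]
      rfl
    have hKZ : Submodule.span (ZMod 2) (Set.range K) ≤ ZF src dst F := by
      rw [Submodule.span_le]
      rintro _ ⟨i, rfl⟩
      exact h1 i
    have hinj : Function.Injective (P.domRestrict (Submodule.span (ZMod 2) (Set.range K))) := by
      intro a b hab
      have hab' : P a.1 = P b.1 := hab
      apply Subtype.ext
      funext e
      by_cases he : e ∈ F
      · rw [hF, mem_image] at he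
        obtain ⟨e', _, rfl⟩ := he
        have := congrFun hab' e'
        rwa [hPx, hPx] at this
      · rw [(hKZ a.2).1 e he, (hKZ b.2).1 e he]
    have e2 : Module.finrank (ZMod 2) (Submodule.span (ZMod 2) (Set.range K)) =
        Module.finrank (ZMod 2) (Submodule.span (ZMod 2) (Set.range (fun i => P (K i)))) := by
      rw [hspan, ← LinearMap.range_domRestrict, LinearMap.finrank_range_of_inj hinj]
    rw [← e2]
    exact e1.trans h3

end

end Pool.Agent.Y382.FS
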