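import Pool.Agent.Y382.FS.Mac
import Pool.Agent.Y382.FS.Cls

set_option autoImplicit false
set_option linter.unusedSectionVars false

/-! # The class of graphs with MacLane defect `h` after the deletion of `k` vertices -/

namespace Pool.Agent.Y382.FS

open Finset Pool.Agent.H753R2.FR Pool.Agent.H753R2.FR.E1 Pool.Agent.TH676.Z

section

variable {V E : Type} [Fintype V] [DecidableEq V] [Fintype E] [DecidableEq E]

theorem lp_self {src dst : E → V} {e : E} (h : src e = dst e) : TH676.Z.lp src dst {e} = dst := by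
  funext d
  unfold TH676.Z.lp
  split_ifs with h1
  · rw [mem_singleton] at h1
    rw [h1, h]
  · rfl

/-- deletion of a set of edges -/
theorem cl_del {Cl : (E → V) → (E → V) → Prop} (hC : MC Cl) {src dst : E → V} (h : Cl src dst)
    (D : Finset E) : Cl src (TH676.Z.lp src dst D) := by
  induction D using Finset.induction_on with
  | empty =>
    have : TH676.Z.lp src dst ∅ = dst := by
      funext d
      simp [TH676.Z.lp]
    rw [this]; exact h
  | insert e D he ih =>
    have h1 : TH676.Z.lp src dst (insert e D) = TH676.Z.lp src (TH676.Z.lp src dst D) {e} := by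
      funext d
      unfold TH676.Z.lp
      by_cases h1 : d = e
      · simp [h1]
      · simp [h1]
    rw [h1]
    by_cases h2 : src e = TH676.Z.lp src dst D e
    · rw [lp_self h2]; exact ih
    · exact hC.del _ _ e ih h2

/-- contraction of a set of edges -/
theorem cl_con {Cl : (E → V) → (E → V) → Prop} (hC : MC Cl) (G : MG V E) (h : Cl G.x G.y)
    (F : Finset E) : ∃ ρ : V → V, (∀ a b, ρ a = ρ b ↔ conn G F a b) ∧
      Cl (ρ ∘ G.x) (ρ ∘ G.y) := by
  induction F using Finset.induction_on with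
  | empty =>
    refine ⟨id, ?_, h⟩
    intro a b
    rw [conn_empty]
    exact Iff.rfl
  | insert e F he ih =>
    obtain ⟨ρ, h1, h2⟩ := ih
    by_cases h3 : ρ (G.x e) = ρ (G.y e)
    · refine ⟨ρ, ?_, h2⟩
      intro a b
      rw [h1, conn_insert, sup_pr_of_rel ((h1 _ _).1 h3)]
    · refine ⟨ctr (ρ (G.x e)) (ρ (G.y e)) ∘ ρ, ?_, ?_⟩
      · intro a b
        rw [conn_insert, sup_pr_iff, ← h1, ← h1, ← h1, ← h1, ← h1]
        simp only [Function.comp, ctr]
        by_cases a1 : ρ a = ρ (G.y e) <;> by_cases b1 : ρ b = ρ (G.y e)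
        · rw [if_pos a1, if_pos b1, a1, b1]; simp
        · rw [if_pos a1, if_neg b1, a1]
          constructor
          · intro h4
            exact Or.inr (Or.inr ⟨rfl, h4⟩)
          · rintro (h4 | ⟨h4, h5⟩ | ⟨_, h5⟩)
            · exact absurd h4.symm b1
            · exact absurd h4.symm h3
            · exact h5
        · rw [if_neg a1, if_pos b1, b1]
          constructor
          · intro h4
            exact Or.inr (Or.inl ⟨h4, rfl⟩)
          · rintro (h4 | ⟨h4, h5⟩ | ⟨h4, _⟩)
            · exact absurd h4 a1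
            · exact h4
            · exact absurd h4 a1
        · rw [if_neg a1, if_neg b1]
          constructor
          · exact fun h4 => Or.inl h4
          · rintro (h4 | ⟨h4, h5⟩ | ⟨h4, _⟩)
            · exact h4
            · exact absurd h5.symm b1
            · exact absurd h4 a1
      · exact hC.con _ _ e h2 h3

end

/-- the class -/
def PK (k h : ℕ) : Cls := fun _ _ _ _ _ _ G => ApH k h G.x G.y

theorem closed_PK (k h : ℕ) : Closed (PK k h) := by
  intro V E V' E' _ _ _ _ _ _ _ _ G F φ ψ hG hφs hψ hφ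
  classical
  obtain ⟨ρ, hρ, hC⟩ := cl_con (aphMC V E k h) G hG F
  obtain ⟨S, hS, hM⟩ := cl_del (aphMC V E k h) hC (univ \ univ.image ψ)
  set s := ρ ∘ G.x with hs
  set d := TH676.Z.lp s (ρ ∘ G.y) (univ \ univ.image ψ) with hd
  -- `θ (ρ a) = φ a`
  have hθ : ∃ θ : V → V', ∀ a, θ (ρ a) = φ a := by
    by_cases hV : Nonempty V
    · obtain ⟨v0⟩ := hV
      refine ⟨fun v => if h' : ∃ a, ρ a = v then φ h'.choose else φ v0, ?_⟩
      intro a
      have h' : ∃ b, ρ b = ρ a := ⟨a, rfl⟩
      simp only [dif_pos h']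
      rw [hφ, ← hρ]
      exact h'.choose_spec
    · exact ⟨fun v => (hV ⟨v⟩).elim, fun a => (hV ⟨a⟩).elim⟩
  obtain ⟨θ, hθ⟩ := hθ
  refine ⟨(S.filter (fun v => v ∈ Set.range ρ)).image θ, ?_, ?_⟩
  · exact card_image_le.trans ((card_filter_le _ _).trans hS)
  · have hdψ : ∀ e, d (ψ e) = ρ (G.y (ψ e)) := by
      intro e
      rw [hd]
      unfold TH676.Z.lp
      rw [if_neg]
      · rfl
      · rw [mem_sdiff, not_and_not_right]
        intro _
        exact mem_image_of_mem _ (mem_univ _)
    have hne : ∀ a b, φ a ≠ φ b ↔ ρ a ≠ ρ b := fun a b => by rw [Ne, Ne, hφ, ← hρ]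
    have hinS : ∀ a, φ a ∈ (S.filter (fun v => v ∈ Set.range ρ)).image θ ↔ ρ a ∈ S := by
      intro a
      rw [mem_image]
      constructor
      · rintro ⟨v, hv, hva⟩
        rw [mem_filter] at hv
        obtain ⟨hv1, b, rfl⟩ := hv
        rw [hθ, hφ, ← hρ] at hva
        rw [← hva]; exact hv1
      · intro ha
        exact ⟨ρ a, mem_filter.2 ⟨ha, a, rfl⟩, hθ a⟩
    refine mac_transfer (F := ES s d S) hM ψ hψ ?_ θ (Set.range ρ) ?_ ?_ ?_
    · have hES : ∀ e', e' ∈ ES (fun e => φ (G.x (ψ e))) (fun e => φ (G.y (ψ e)))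
          ((S.filter (fun v => v ∈ Set.range ρ)).image θ) ↔
          (ρ (G.x (ψ e')) ≠ ρ (G.y (ψ e')) ∧ ρ (G.x (ψ e')) ∉ S ∧ ρ (G.y (ψ e')) ∉ S) := by
        intro e'
        rw [ES, mem_filter, hinS, hinS, hne]
        simp only [mem_univ, true_and]
      ext e
      rw [mem_image, ES, mem_filter]
      simp only [mem_univ, true_and]
      constructor
      · rintro ⟨h1, h2, h3⟩
        have he : e ∈ univ.image ψ := by
          by_contra hc
          apply h1
          rw [hd]
          unfold TH676.Z.lp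
          rw [if_pos (mem_sdiff.2 ⟨mem_univ _, hc⟩)]
        rw [mem_image] at he
        obtain ⟨e', _, rfl⟩ := he
        rw [hdψ] at h1 h3
        exact ⟨e', (hES e').2 ⟨h1, h2, h3⟩, rfl⟩
      · rintro ⟨e', he', rfl⟩
        obtain ⟨h1, h2, h3⟩ := (hES e').1 he'
        rw [hdψ]
        exact ⟨h1, h2, h3⟩
    · intro e he
      simp only [ES, mem_filter, mem_univ, true_and] at he
      refine ⟨⟨G.x e, rfl⟩, ?_⟩
      rw [hd]
      unfold TH676.Z.lp
      split_ifs
      · exact ⟨G.x e, rfl⟩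
      · exact ⟨G.y e, rfl⟩
    · rintro _ ⟨a, rfl⟩ _ ⟨b, rfl⟩ hab
      rw [hθ, hθ, hφ, ← hρ] at hab
      exact hab
    · intro e _
      refine ⟨(hθ _).symm, ?_⟩
      rw [hdψ]
      exact (hθ _).symm

end Pool.Agent.Y382.FS
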