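import Pool.Agent.Y382.FS.MacMin
import Pool.Agent.TH455.FP.Seven
import Pool.Agent.TH676.Z.ApexH
import Pool.Agent.TH676.Z.Ball
import Pool.Agent.TH676.Z.Edge14
import Pool.Agent.TH676.Z.Split

set_option autoImplicit false
set_option linter.unusedSectionVars false

/-! # No minimal counterexample on surfaces -/

namespace Pool.Agent.Y382.FS

open Finset Pool.Agent.H753R2.FR Pool.Agent.H753R2.FR.E1 Pool.Agent.TH325.FR Pool.Agent.TH455.FP
open Pool.Agent.TH499.TF

/-- the number of vertices of a graph with minimum degree three and girth `g` is at least this -/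
def moore (g : ℕ) : ℕ := (if g % 2 = 0 then 2 else 3) * 2 ^ (g / 2) - 2

section

variable {V E : Type} [Fintype V] [DecidableEq V] [Fintype E] [DecidableEq E]
variable {q : ℝ} {G : MG V E}

/-- an element of the cycle space which is not zero contains a circuit -/
theorem dep_of_cycle (F : Finset E) (x : E → ZMod 2) (hx : x ∈ TH676.Z.ZF G.x G.y F)
    (h0 : x ≠ 0) : Dep G (univ.filter (fun e => x e ≠ 0)) := by
  classical
  obtain ⟨e, he⟩ := Function.ne_iff.1 h0
  have he' : x e ≠ 0 := he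
  refine ⟨e, by simp [he'], ?_⟩
  set U : Finset E := univ.filter (fun e => x e ≠ 0) with hU
  by_contra hc
  apply he'
  set Y : Finset V := univ.filter (fun v => conn G (U.erase e) (G.x e) v) with hY
  have hYx : G.x e ∈ Y := by simp [hY, Setoid.refl']
  have hYy : G.y e ∉ Y := by simp [hY, hc]
  have h1 : ∑ v ∈ Y, TH676.Z.bd2 G.x G.y x v = 0 := sum_eq_zero fun v _ => hx.2 v
  unfold TH676.Z.bd2 at h1
  rw [sum_comm] at h1
  have h2 : ∀ d, ∑ v ∈ Y, ((if G.x d = v then x d else 0) + (if G.y d = v then x d else 0)) =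
      (if G.x d ∈ Y then x d else 0) + (if G.y d ∈ Y then x d else 0) := by
    intro d
    rw [sum_add_distrib, sum_ite_eq, sum_ite_eq]
  rw [sum_congr rfl fun d _ => h2 d, sum_eq_single e] at h1
  · rw [if_pos hYx, if_neg hYy, add_zero] at h1
    exact h1
  · intro d _ hde
    by_cases hd : x d = 0
    · rw [hd]; simp
    · have hdU : d ∈ U.erase e := by
        rw [mem_erase, hU, mem_filter]
        exact ⟨hde, mem_univ _, hd⟩
      have h3 : conn G (U.erase e) (G.x d) (G.y d) := (conn_le_iff G).1 le_rfl d hdU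
      have h4 : G.x d ∈ Y ↔ G.y d ∈ Y := by
        simp only [hY, mem_filter, mem_univ, true_and]
        exact ⟨fun h => (conn G _).trans h h3, fun h => (conn G _).trans h ((conn G _).symm h3)⟩
      by_cases h5 : G.x d ∈ Y
      · rw [if_pos h5, if_pos (h4.1 h5)]
        exact TH676.Z.MacDelx.self_add _
      · rw [if_neg h5, if_neg (fun h => h5 (h4.2 h)), add_zero]
  · intro h
    exact absurd (mem_univ e) h

theorem supp_ge (h : MCE q G) (hq : 1 < q) {g : ℕ} (hg : (g : ℝ) < q + 1) (F : Finset E)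
    (x : E → ZMod 2) (hx : x ∈ TH676.Z.ZF G.x G.y F) (h0 : x ≠ 0) :
    g ≤ (univ.filter (fun e => x e ≠ 0)).card := by
  by_contra hc
  push Not at hc
  refine h.short hq _ ?_ (dep_of_cycle F x hx h0)
  have h1 : ((univ.filter (fun e => x e ≠ 0)).card : ℝ) + 1 ≤ g := by exact_mod_cast hc
  linarith

theorem three (h : MCE q G) (hq : 5 < q) : TH676.Z.Three (TH676.Z.Adj G.x G.y) := by
  intro x y hxy
  obtain ⟨a, b, c, n1, n2, n3, h1, h2, h3⟩ := h.nbr hq x y hxy
  exact ⟨a, b, c, h1, h2, h3, n1, n3, n2⟩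

theorem noPar (h : MCE q G) (hq : 5 < q) : TH676.Z.NoPar G.x G.y := by
  intro e e' x y _ h1 h2
  exact h.two hq (a := x) (b := y) h1 h2

/-- there is an edge -/
theorem has_edge (h : MCE q G) (hq : 0 < q) : Nonempty E := by
  by_contra hE
  have h1 : (univ : Finset E) = ∅ := by
    apply Finset.eq_empty_of_forall_notMem
    intro e _
    exact hE ⟨e⟩
  have h2 := h.neg
  rw [h1, m_empty] at h2
  have := pow_pos hq (cl (⊥ : Setoid V))
  linarith

theorem adj_edge (h : MCE q G) (e : E) : TH676.Z.Adj G.x G.y (G.x e) (G.y e) :=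
  ⟨h.loop e, e, Or.inl ⟨rfl, rfl⟩⟩

theorem mem_VS {T : Finset V} {x z : V} (hx : x ∉ T) (hxz : TH676.Z.Adj G.x G.y x z) :
    x ∈ TH676.Z.VS G.x G.y T := by
  simp only [TH676.Z.VS, mem_filter, mem_univ, true_and]
  exact ⟨hx, z, hxz⟩

/-- Moore's bound for the vertices which are not isolated -/
theorem moore_le (h : MCE q G) (hq : 5 < q) {g : ℕ} (hg2 : 2 ≤ g) (hg : (g : ℝ) < q + 1) :
    moore g ≤ (TH676.Z.VS G.x G.y ∅).card := by
  classical
  set N := TH676.Z.VS G.x G.y ∅ with hN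
  have hx : ∀ e, G.x e ∈ N := fun e => mem_VS (notMem_empty _) (adj_edge h e)
  have hy : ∀ e, G.y e ∈ N := fun e => mem_VS (notMem_empty _) (z := G.x e)
    ⟨(h.loop e).symm, e, Or.inr ⟨rfl, rfl⟩⟩
  let G' : MG N E := ⟨fun e => ⟨G.x e, hx e⟩, fun e => ⟨G.y e, hy e⟩⟩
  have hconn : ∀ A : Finset E, ∀ a b : N, conn G' A a b → conn G A a.1 b.1 := by
    intro A a b hab
    have h1 : conn G' A ≤ Setoid.comap Subtype.val (conn G A) := by
      rw [conn_le_iff]
      intro e he
      exact (conn_le_iff G).1 le_rfl e he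
    exact h1 hab
  have hshort : ∀ C : Finset E, C.Nonempty → C.card + 1 ≤ g → ¬ Circ G' ⊥ C := by
    intro C hC hCg hcirc
    obtain ⟨e, he⟩ := hC
    refine h.short (by linarith) C ?_ ⟨e, he, ?_⟩
    · have h1 : (C.card : ℝ) + 1 ≤ g := by exact_mod_cast hCg
      linarith
    · have h1 := hcirc e he
      rw [bot_sup_eq] at h1
      exact hconn _ _ _ h1
  have hdeg : ∀ v, 3 ≤ (cut G' {v} {v}ᶜ).card := by
    rintro ⟨v, hv⟩
    have h1 : cut G' {⟨v, hv⟩} {⟨v, hv⟩}ᶜ = cut G {v} {v}ᶜ := by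
      ext e
      simp only [cut, mem_filter, mem_univ, true_and, mem_singleton, mem_compl, G',
        Subtype.mk.injEq]
    rw [h1]
    apply h.deg (by linarith)
    have hv' := hv
    simp only [hN, TH676.Z.VS, mem_filter, mem_univ, true_and] at hv'
    obtain ⟨_, y, hne, e, he⟩ := hv'
    refine ⟨e, ?_⟩
    simp only [cut, mem_filter, mem_univ, true_and, mem_singleton, mem_compl]
    rcases he with ⟨h2, h3⟩ | ⟨h2, h3⟩
    · exact Or.inl ⟨h2, by rw [h3]; exact hne.symm⟩
    · exact Or.inr ⟨by rw [h2]; exact hne.symm, h3⟩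
  obtain ⟨e0⟩ := has_edge h (by linarith)
  haveI : Nonempty N := ⟨⟨G.x e0, hx e0⟩⟩
  have hcard : Fintype.card N = N.card := Fintype.card_coe N
  by_contra hc
  push Not at hc
  unfold moore at hc
  rcases Nat.even_or_odd' g with ⟨k, hk | hk⟩
  · -- `g = 2 k`, circuits of length at most `2 (k - 1) + 1`
    have h1 : g % 2 = 0 := by omega
    have h2 : g / 2 = k := by omega
    rw [if_pos h1, h2] at hc
    obtain ⟨r, rfl⟩ : ∃ r, k = r + 1 := ⟨k - 1, by omega⟩
    obtain ⟨C, hC1, hC2, hC3⟩ := short_circ_odd G' hdeg (fun e h' => h.loop e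
      (congrArg Subtype.val h')) r (by
        rw [hcard]
        rw [pow_succ] at hc
        omega)
    exact hshort C hC1 (by omega) hC3
  · have h1 : ¬ g % 2 = 0 := by omega
    have h2 : g / 2 = k := by omega
    rw [if_neg h1, h2] at hc
    obtain ⟨C, hC1, hC2, hC3⟩ := short_circ_even G' hdeg k (by
        rw [hcard]
        omega)
    exact hshort C hC1 (by omega) hC3

end

theorem le_moore (g : ℕ) : g ≤ moore g := by
  unfold moore
  have h1 : g / 2 + 1 ≤ 2 ^ (g / 2) := Nat.succ_le_of_lt Nat.lt_two_pow_self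
  by_cases h2 : g % 2 = 0
  · rw [if_pos h2]; omega
  · rw [if_neg h2]; omega

/-- the numerical contradiction -/
theorem numA {a m n r z h M : ℕ} (h1 : m + 1 ≤ z + n) (h2 : 3 * n ≤ 2 * m)
    (h4 : 1 ≤ r → (a + 6) * (r + 1) ≤ 2 * m) (h5 : z ≤ r + h) (h6 : M ≤ n) (h7 : a + 6 ≤ M)
    (h8 : 2 * (a + 6) * h < a * M + 4 * (a + 6)) : False := by
  rcases Nat.eq_zero_or_pos r with h0 | h0
  · subst h0
    have h9 : M + 2 ≤ 2 * h := by omega
    have h10 : a * M + 2 * a ≤ a * (2 * h) := by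
      calc a * M + 2 * a = a * (M + 2) := by ring
        _ ≤ a * (2 * h) := Nat.mul_le_mul_left _ h9
    have h11 : 2 * (a + 6) * h = a * (2 * h) + 12 * h := by ring
    omega
  · have h9 := h4 h0
    have h10 : (a + 6) * (m + 2) ≤ (a + 6) * (r + 1) + (a + 6) * (h + n) := by
      rw [← Nat.mul_add]
      exact Nat.mul_le_mul_left _ (by omega)
    have h11 : (a + 6) * (3 * n) ≤ (a + 6) * (2 * m) := Nat.mul_le_mul_left _ h2
    have h12 : a * (3 * M) ≤ a * (2 * m) := Nat.mul_le_mul_left _ (by omega)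
    nlinarith

section

variable {V E : Type} [Fintype V] [DecidableEq V] [Fintype E] [DecidableEq E]
variable {q : ℝ} {G : MG V E}

theorem ES_ends (T : Finset V) (e : E) (he : e ∈ TH676.Z.ES G.x G.y T) :
    G.x e ∈ TH676.Z.VS G.x G.y T ∧ G.y e ∈ TH676.Z.VS G.x G.y T := by
  unfold TH676.Z.ES at he
  rw [mem_filter] at he
  obtain ⟨_, h1, h2, h3'⟩ := he
  exact ⟨mem_VS h2 (z := G.y e) ⟨h1, e, Or.inl ⟨rfl, rfl⟩⟩,
    mem_VS h3' (z := G.x e) ⟨Ne.symm h1, e, Or.inr ⟨rfl, rfl⟩⟩⟩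

theorem no_mce_g (hq : 5 < q) {g h : ℕ} (hg6 : 6 ≤ g) (hg : (g : ℝ) < q + 1)
    (hh : 2 * g * h < (g - 6) * moore g + 4 * g) (hP : PK 0 h V E G) : ¬ MCE q G := by
  intro hM
  obtain ⟨T, hT, l, K, k1, k2, k3⟩ := hP
  have hT0 : T = ∅ := by
    rw [← card_eq_zero]; omega
  subst hT0
  have hm := moore_le hM hq (by omega) hg
  have hlm := le_moore g
  have hne : (TH676.Z.VS G.x G.y ∅).Nonempty := by
    rw [← card_pos]; omega
  have e1 := TH676.Z.dim V E G.x G.y (TH676.Z.ES G.x G.y ∅) (TH676.Z.VS G.x G.y ∅) hne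
    (ES_ends ∅)
  have e2 := TH676.Z.degS V E G.x G.y ∅ (three hM hq)
  rw [sum_empty, add_zero] at e2
  have e4 := TH676.Z.facesG V E G.x G.y (TH676.Z.ES G.x G.y ∅) l g K k1 k2
    (fun x hx h0 => supp_ge hM (by linarith) hg _ x hx h0)
  obtain ⟨a, rfl⟩ : ∃ a, g = a + 6 := ⟨g - 6, by omega⟩
  rw [Nat.add_sub_cancel] at hh
  exact numA e1 e2 e4 k3 hm hlm hh

/-- one apex vertex, `q > 6` -/
theorem no_mce_1 (hq : 6 < q) (hP : PK 1 2 V E G) : ¬ MCE q G := by
  intro hM
  obtain ⟨T, hT, hMac⟩ := hP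
  have hTc : T.card = 0 ∨ T.card = 1 := by omega
  rcases hTc with hT0 | hT1
  · exact no_mce_g (g := 7) (h := 2) (by linarith) (by norm_num) (by norm_num; linarith)
      (by decide) ⟨T, hT0.le, hMac⟩ hM
  · obtain ⟨s, rfl⟩ := card_eq_one.1 hT1
    obtain ⟨l, K, k1, k2, k3⟩ := hMac
    have hG := hM.gi hq
    have h3 := three hM (by linarith)
    have hm : 22 ≤ (TH676.Z.VS G.x G.y ∅).card :=
      moore_le hM (by linarith) (g := 7) (by norm_num) (by norm_num; linarith)
    have hm1 : (TH676.Z.VS G.x G.y ∅).card ≤ (TH676.Z.VS G.x G.y {s}).card + 1 := by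
      refine (card_le_card (t := insert s (TH676.Z.VS G.x G.y {s})) ?_).trans (card_insert_le _ _)
      intro v hv
      rw [mem_insert]
      by_cases hvs : v = s
      · exact Or.inl hvs
      · right
        simp only [TH676.Z.VS, mem_filter, mem_univ, true_and] at hv ⊢
        exact ⟨by rwa [mem_singleton], hv.2⟩
    have hV : TH676.Z.Vs G.x G.y s = TH676.Z.VS G.x G.y {s} := by
      unfold TH676.Z.Vs TH676.Z.VS
      ext v
      simp only [mem_filter, mem_univ, true_and, mem_singleton]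
    have hb := TH676.Z.ball V E G.x G.y s hG h3
    rw [hV] at hb
    have hne : (TH676.Z.VS G.x G.y {s}).Nonempty := by
      rw [← card_pos]; omega
    have e1 := TH676.Z.dim V E G.x G.y (TH676.Z.ES G.x G.y {s}) (TH676.Z.VS G.x G.y {s}) hne
      (ES_ends {s})
    have e2 := TH676.Z.degS V E G.x G.y {s} h3
    rw [sum_singleton] at e2
    have e4 := TH676.Z.facesG V E G.x G.y (TH676.Z.ES G.x G.y {s}) l 7 K k1 k2
      (fun x hx h0 => supp_ge hM (by linarith) (by norm_num; linarith) _ x hx h0)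
    rcases Nat.eq_zero_or_pos (Module.finrank (ZMod 2) (Submodule.span (ZMod 2) (Set.range K)))
      with h0 | h0
    · omega
    · have := e4 h0
      omega

/-- there is no closed walk of length seven -/
theorem c7 (h : MCE q G) (hq : 7 < q) : TH676.Z.C7 (TH676.Z.Adj G.x G.y) := by
  have hG := h.gi (by linarith)
  intro a b c d e f g h1 h2 h3 h4 h5 h6 h7
  have hac : a ≠ c := by
    rintro rfl
    exact hG.c5 a d e f g h3 h4 h5 h6 h7
  have had : a ≠ d := by
    rintro rfl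
    exact hG.c3 a b c h1 h2 h3
  have hae : a ≠ e := by
    rintro rfl
    exact hG.c3 a f g h5 h6 h7
  have haf : a ≠ f := by
    rintro rfl
    exact hG.c5 a b c d e h1 h2 h3 h4 h5
  have hbg : b ≠ g := by
    rintro rfl
    exact hG.c5 b c d e f h2 h3 h4 h5 h6
  obtain ⟨n1, e1, j1⟩ := h1
  obtain ⟨n2, e2, j2⟩ := h2
  obtain ⟨n3, e3, j3⟩ := h3
  obtain ⟨n4, e4, j4⟩ := h4
  obtain ⟨n5, e5, j5⟩ := h5
  obtain ⟨n6, e6, j6⟩ := h6
  obtain ⟨n7, e7, j7⟩ := h7
  have hA : e1 ∉ ({e2, e3, e4, e5, e6, e7} : Finset E) := by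
    simp only [mem_insert, mem_singleton, not_or]
    refine ⟨?_, ?_, ?_, ?_, ?_, ?_⟩ <;> rintro rfl
    · rcases jends j1 j2 with ⟨a1, a2⟩ | ⟨a1, a2⟩
      · exact n1 a1
      · exact hac a1
    · rcases jends j1 j3 with ⟨a1, a2⟩ | ⟨a1, a2⟩
      · exact hac a1
      · exact had a1
    · rcases jends j1 j4 with ⟨a1, a2⟩ | ⟨a1, a2⟩
      · exact had a1
      · exact hae a1
    · rcases jends j1 j5 with ⟨a1, a2⟩ | ⟨a1, a2⟩
      · exact hae a1
      · exact haf a1
    · rcases jends j1 j6 with ⟨a1, a2⟩ | ⟨a1, a2⟩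
      · exact haf a1
      · exact n7 a1.symm
    · rcases jends j1 j7 with ⟨a1, a2⟩ | ⟨a1, a2⟩
      · exact n7 a1.symm
      · exact hbg a2
  have m2 : conn G {e2, e3, e4, e5, e6, e7} b c := conn_joins (by simp) j2
  have m3 : conn G {e2, e3, e4, e5, e6, e7} c d := conn_joins (by simp) j3
  have m4 : conn G {e2, e3, e4, e5, e6, e7} d e := conn_joins (by simp) j4
  have m5 : conn G {e2, e3, e4, e5, e6, e7} e f := conn_joins (by simp) j5
  have m6 : conn G {e2, e3, e4, e5, e6, e7} f g := conn_joins (by simp) j6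
  have m7 : conn G {e2, e3, e4, e5, e6, e7} g a := conn_joins (by simp) j7
  have m := (conn G {e2, e3, e4, e5, e6, e7}).trans ((conn G {e2, e3, e4, e5, e6, e7}).trans
    ((conn G {e2, e3, e4, e5, e6, e7}).trans ((conn G {e2, e3, e4, e5, e6, e7}).trans
    ((conn G {e2, e3, e4, e5, e6, e7}).trans m2 m3) m4) m5) m6) m7
  refine h.short (by linarith) _ ?_
    (dep_of j1 hA ((conn G {e2, e3, e4, e5, e6, e7}).symm m))
  have h3 : (insert e1 ({e2, e3, e4, e5, e6, e7} : Finset E)).card ≤ 7 :=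
    (card_insert_le _ _).trans (Nat.succ_le_succ card_le_six)
  have : ((insert e1 ({e2, e3, e4, e5, e6, e7} : Finset E)).card : ℝ) ≤ 7 := by exact_mod_cast h3
  linarith

/-- apex vertices, `q > 7` -/
theorem no_mce_7 (hq : 7 < q) {k h : ℕ}
    (hkh : (k = 0 ∧ h = 5) ∨ (k = 1 ∧ h = 4) ∨ (k = 2 ∧ h = 3) ∨ (k = 3 ∧ h = 1))
    (hP : PK k h V E G) : ¬ MCE q G := by
  intro hM
  obtain ⟨T, hTc, l, K, k1, k2, k3⟩ := hP
  have hG := hM.gi (by linarith)
  have hT := three hM (by linarith)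
  have hPar := noPar hM (by linarith)
  have h7 := c7 hM hq
  obtain ⟨e0⟩ := has_edge hM (by linarith)
  have ha0 := adj_edge hM e0
  obtain ⟨s1, s2⟩ := TH676.Z.split V E G.x G.y T hPar
  have h14 := TH676.Z.edge14 V E G.x G.y
  -- at least 45 edges
  have h45 : 45 ≤ (univ.filter (fun e => G.x e ≠ G.y e)).card := by
    obtain ⟨a, b, c, ha, hb', hc, hab, hac, hbc⟩ := hT _ _ ha0
    have h1 : 3 ≤ (TH676.Z.Ns G.x G.y (G.x e0)).card := by
      have h2 : ({a, b, c} : Finset V) ⊆ TH676.Z.Ns G.x G.y (G.x e0) := by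
        intro x hx
        simp only [mem_insert, mem_singleton] at hx
        simp only [TH676.Z.Ns, mem_filter, mem_univ, true_and]
        rcases hx with rfl | rfl | rfl <;> assumption
      have h3 := card_le_card h2
      rwa [card_eq_three.2 ⟨a, b, c, hab, hac, hbc, rfl⟩] at h3
    have h2 := h14 (G.x e0) hG h7 hT
    have h3 := s2 (G.x e0)
    omega
  have h15 : 15 * ∑ s ∈ T, (TH676.Z.Ns G.x G.y s).card ≤
      k * ((TH676.Z.ES G.x G.y T).card + ∑ s ∈ T, (TH676.Z.Ns G.x G.y s).card) := by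
    have hs' : ∀ s ∈ T, 15 * (TH676.Z.Ns G.x G.y s).card ≤
        (TH676.Z.ES G.x G.y T).card + ∑ s ∈ T, (TH676.Z.Ns G.x G.y s).card := by
      intro s _
      have h1 := h14 s hG h7 hT
      have h2 := s2 s
      omega
    rw [mul_sum]
    calc ∑ s ∈ T, 15 * (TH676.Z.Ns G.x G.y s).card
        ≤ ∑ _s ∈ T, ((TH676.Z.ES G.x G.y T).card + ∑ s ∈ T, (TH676.Z.Ns G.x G.y s).card) :=
          sum_le_sum hs'
      _ = T.card * ((TH676.Z.ES G.x G.y T).card + ∑ s ∈ T, (TH676.Z.Ns G.x G.y s).card) := by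
          rw [sum_const, smul_eq_mul]
      _ ≤ _ := Nat.mul_le_mul_right _ hTc
  have h6 : 45 ≤ (TH676.Z.ES G.x G.y T).card + ∑ s ∈ T, (TH676.Z.Ns G.x G.y s).card :=
    h45.trans s1
  have hk3 : k ≤ 3 := by omega
  have hne : (TH676.Z.VS G.x G.y T).Nonempty := by
    rw [nonempty_iff_ne_empty]
    intro hem
    have h0 : (TH676.Z.ES G.x G.y T).card = 0 := by
      rw [card_eq_zero, eq_empty_iff_forall_notMem]
      intro e he
      have := (ES_ends T e he).1
      rw [hem] at this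
      exact absurd this (notMem_empty _)
    rw [h0, zero_add] at h15 h6
    have := h15.trans (Nat.mul_le_mul_right _ hk3)
    omega
  have e1 := TH676.Z.dim V E G.x G.y (TH676.Z.ES G.x G.y T) (TH676.Z.VS G.x G.y T) hne
    (ES_ends T)
  have e2 := TH676.Z.degS V E G.x G.y T hT
  have e4 := TH676.Z.facesG V E G.x G.y (TH676.Z.ES G.x G.y T) l 8 K k1 k2
    (fun x hx h0 => supp_ge hM (by linarith) (by norm_num; linarith) _ x hx h0)
  exact TH676.Z.num4 e1 e2 h15 e4 k3 h6 hkh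

end

end Pool.Agent.Y382.FS
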